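import Pool.Agent.N145.SX.Stm
import Pool.Agent.N145.PC.Str1

/-!
Project SX (helper145), part CST: correspondences of small degree on rational curves are constant, in
an ambient field. Author: helper438, after `Pool.Agent.N145.PC.cst_amb`.
-/

set_option autoImplicit false
set_option linter.overlappingInstances false
set_option linter.unusedSectionVars false
set_option linter.unusedVariables false

open Polynomial FF IsDedekindDomain IntermediateField Module

namespace Pool.Agent.N438.SX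

open Pool.Agent.W603.LV Pool.Agent.W619.PQ Pool.Agent.N145.PC
open Pool.Agent.N145.SX (HX SepX S_CST1 S_CST)

open scoped Classical

/-- **CST.** -/
theorem CST (hcst : S_CST1) : S_CST := by
  intro E Λ Ω _ _ _ _ _ _ _ _ _ _ m N hm hN x hx g hg s hs φ hfin hdeg z
  have hΛ0 : CharZero Λ := charZero_of_injective_algebraMap (algebraMap ℂ Λ).injective
  obtain ⟨E1, hE1⟩ : ∃ E1 : IntermediateField Λ Ω, E1 =
    (IntermediateField.adjoin Λ⟮s⟯ (Set.range φ)).restrictScalars Λ := ⟨_, rfl⟩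
  have hmemE : ∀ y : Ω, y ∈ E1 ↔ y ∈ IntermediateField.adjoin Λ⟮s⟯ (Set.range φ) := by
    intro y
    rw [hE1]
    rfl
  have hsE : s ∈ E1 := by
    rw [hE1]
    exact (IntermediateField.adjoin Λ⟮s⟯ (Set.range φ)).algebraMap_mem
      ⟨s, mem_adjoin_simple_self Λ s⟩
  have hφE : ∀ f, φ f ∈ E1 := fun f => by
    rw [hE1]
    exact IntermediateField.subset_adjoin _ _ ⟨f, rfl⟩
  let s1 : E1 := ⟨s, hsE⟩
  have hs1 : Transcendental Λ s1 := fun h => hs (h.algebraMap (A := Ω))
  let φ1 : E →ₐ[ℂ] E1 :=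
    { toFun := fun f => ⟨φ f, hφE f⟩
      map_one' := Subtype.ext (map_one φ)
      map_mul' := fun a b => Subtype.ext (map_mul φ a b)
      map_zero' := Subtype.ext (map_zero φ)
      map_add' := fun a b => Subtype.ext (map_add φ a b)
      commutes' := fun c => Subtype.ext (φ.commutes c) }
  let iA : Algebra E E1 := φ1.toRingHom.toAlgebra
  have hT1 : IsScalarTower ℂ E E1 := IsScalarTower.of_algebraMap_eq fun c =>
    Subtype.ext (φ.commutes c).symm
  have hT2 : IsScalarTower ℂ Λ E1 := IsScalarTower.of_algebraMap_eq fun c =>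
    Subtype.ext (IsScalarTower.algebraMap_apply ℂ Λ Ω c)
  -- the degrees
  have hlift : IntermediateField.lift Λ⟮s1⟯ = Λ⟮s⟯ := by
    rw [IntermediateField.lift_adjoin_simple]
  let e1 : Λ⟮s1⟯ ≃+* Λ⟮s⟯ :=
    ((IntermediateField.liftAlgEquiv Λ⟮s1⟯).toRingEquiv).trans
      (IntermediateField.equivOfEq hlift).toRingEquiv
  have he1 : ∀ x : Λ⟮s1⟯, ((e1 x : Λ⟮s⟯) : Ω) = ((x : E1) : Ω) := fun _ => rfl
  let e2 : E1 ≃+* (IntermediateField.adjoin Λ⟮s⟯ (Set.range φ)) :=
    { toFun := fun x => ⟨x, (hmemE _).1 x.2⟩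
      invFun := fun x => ⟨x, (hmemE _).2 x.2⟩
      left_inv := fun _ => rfl
      right_inv := fun _ => rfl
      map_mul' := fun _ _ => rfl
      map_add' := fun _ _ => rfl }
  have hcomm : (algebraMap Λ⟮s⟯ (IntermediateField.adjoin Λ⟮s⟯ (Set.range φ))).comp
      (e1 : Λ⟮s1⟯ →+* Λ⟮s⟯) = (e2 : E1 →+* _).comp (algebraMap Λ⟮s1⟯ E1) := by
    ext x
    exact he1 x
  have hfr : finrank Λ⟮s1⟯ E1 = finrank Λ⟮s⟯ (IntermediateField.adjoin Λ⟮s⟯ (Set.range φ)) :=
    Algebra.finrank_eq_of_equiv_equiv e1 e2 hcomm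
  have hfin1 : FiniteDimensional Λ⟮s1⟯ E1 := by
    refine FiniteDimensional.of_finrank_pos ?_
    rw [hfr]
    exact finrank_pos
  have hFF : IsFF Λ E1 := IsFF.of_finite hs1 hfin1
  have hgen : IntermediateField.adjoin Λ⟮s1⟯ (Set.range (algebraMap E E1)) = ⊤ := by
    rw [eq_top_iff]
    rintro x -
    have h1 : (x : Ω) ∈ IntermediateField.adjoin Λ⟮s⟯ (Set.range φ) := (hmemE _).1 x.2
    -- the subfield of the elements which are in the left side
    let T : IntermediateField Λ⟮s⟯ Ω :=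
      { carrier := {y | ∃ h : y ∈ E1, (⟨y, h⟩ : E1) ∈
          IntermediateField.adjoin Λ⟮s1⟯ (Set.range (algebraMap E E1))}
        mul_mem' := by
          rintro a b ⟨ha, ha'⟩ ⟨hb, hb'⟩
          exact ⟨mul_mem ha hb, mul_mem ha' hb'⟩
        add_mem' := by
          rintro a b ⟨ha, ha'⟩ ⟨hb, hb'⟩
          exact ⟨add_mem ha hb, add_mem ha' hb'⟩
        algebraMap_mem' := by
          intro r
          have h2 : algebraMap Λ⟮s⟯ Ω r ∈ E1 := by
            rw [hE1]
            exact (IntermediateField.adjoin Λ⟮s⟯ (Set.range φ)).algebraMap_mem r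
          refine ⟨h2, ?_⟩
          have h3 : (⟨algebraMap Λ⟮s⟯ Ω r, h2⟩ : E1) = algebraMap Λ⟮s1⟯ E1 (e1.symm r) := by
            apply Subtype.ext
            have h4 := he1 (e1.symm r)
            rw [RingEquiv.apply_symm_apply] at h4
            exact h4
          rw [h3]
          exact IntermediateField.algebraMap_mem _ _
        inv_mem' := by
          rintro a ⟨ha, ha'⟩
          exact ⟨inv_mem ha, inv_mem ha'⟩ }
    have h2 : IntermediateField.adjoin Λ⟮s⟯ (Set.range φ) ≤ T := by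
      rw [IntermediateField.adjoin_le_iff]
      rintro _ ⟨f, rfl⟩
      exact ⟨hφE f, IntermediateField.subset_adjoin _ _ ⟨f, rfl⟩⟩
    obtain ⟨h3, h4⟩ := h2 h1
    exact h4
  have h1 := hcst E Λ E1 m N hm hN x hx g hg s1 hs1 hgen (by rw [hfr]; exact hdeg) z
  exact h1.algebraMap (A := Ω)

end Pool.Agent.N438.SX
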