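import Pool.Agent.N145.SX.Stm
import Pool.Agent.N145.PC.Cst
import Pool.Agent.Y944.NT.NLa
import Pool.Agent.Y888.NT.FinDer

/-!
Project SX (helper145), part CST1: correspondences of small degree on rational curves are constant.
Author: helper438, after `Pool.Agent.N145.PC.cst` and the file of the project NT on rational curves.
-/

set_option autoImplicit false
set_option linter.overlappingInstances false
set_option linter.unusedSectionVars false
set_option linter.unusedVariables false

open Polynomial FF IntermediateField Module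

namespace Pool.Agent.N438.SX

open Pool.Agent.W603.LV Pool.Agent.W619.PQ Pool.Agent.N145.PC
open Pool.Agent.N145.SX (HX SepX S_REGF S_CST1)

open scoped Classical

/-- the basis of the fibre and of the constants -/
theorem basis_cons {Λ Ξ : Type} [Field Λ] [Field Ξ] [Algebra ℂ Λ] [Algebra ℂ Ξ] [Algebra Λ Ξ]
    [IsScalarTower ℂ Λ Ξ] [CharZero Λ] [IsFF Λ Ξ] {N : ℕ} {u : Fin N → Λ}
    (hu : IsTranscendenceBasis ℂ u) {s : Ξ} (hs : Transcendental Λ s) :
    IsTranscendenceBasis ℂ (Fin.cons s (fun i => algebraMap Λ Ξ (u i)) : Fin (N + 1) → Ξ) := by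
  have hb : IsTranscendenceBasis Λ (fun _ : Fin 1 => s) := by
    have h1 : AlgebraicIndependent Λ (fun _ : Fin 1 => s) :=
      (algebraicIndependent_unique_type_iff).2 hs
    refine h1.isTranscendenceBasis_iff_isAlgebraic.2 ?_
    have h2 := IsFF.isAlgebraic hs
    refine alg_adjoin fun z => ?_
    have h3 : Set.range (fun _ : Fin 1 => s) = {s} := by
      ext y
      simp [eq_comm]
    rw [h3]
    exact h2.isAlgebraic z
  have h1 := hu.sumElim_comp hb
  let e : Fin (N + 1) ≃ Fin 1 ⊕ Fin N :=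
    { toFun := Fin.cons (Sum.inl 0) Sum.inr
      invFun := Sum.elim (fun _ => 0) Fin.succ
      left_inv := by
        intro i
        refine Fin.cases rfl (fun i => ?_) i
        simp
      right_inv := by
        rintro (i | i)
        · simp [Subsingleton.elim i 0]
        · simp }
  refine (isTranscendenceBasis_equiv' e ?_).2 h1
  funext i
  refine Fin.cases rfl (fun i => ?_) i
  simp [e]

/-- **CST1.** -/
theorem CST1 (hreg : S_REGF) : S_CST1 := by
  intro E Λ Ξ _ _ _ _ _ _ _ _ _ _ _ _ _ m N hm hN x hx g hg s hs hgen hdeg z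
  have hΛ0 : CharZero Λ := charZero_of_injective_algebraMap (algebraMap ℂ Λ).injective
  have hfin : FiniteDimensional Λ⟮s⟯ Ξ := IsFF.finite hs
  have hchar : CharZero Λ⟮s⟯ := charZero_of_injective_algebraMap (algebraMap Λ Λ⟮s⟯).injective
  obtain ⟨Ds, hDs⟩ := exists_D (k := Λ) hs
  have hDs0 : Ds ≠ 0 := by
    rintro rfl
    simp at hDs
  -- the transcendence basis and the dual vector fields
  obtain ⟨u, Eu, hu, hEu⟩ := Pool.Agent.Y944.NT.exists_crd (k := ℂ) (K := Λ) hN
  obtain ⟨T, hTd⟩ : ∃ T : Fin (N + 1) → Ξ, T = Fin.cons s (fun i => algebraMap Λ Ξ (u i)) :=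
    ⟨_, rfl⟩
  have hT : IsTranscendenceBasis ℂ T := by
    rw [hTd]
    exact basis_cons hu hs
  choose δ hδ using fun i : Fin (N + 1) =>
    Pool.Agent.W602.GT.exists_der T hT fun j => if i = j then 1 else 0
  have ha : ∀ y, δ 0 y = Ds y := by
    have h1 : δ 0 = Ds.restrictScalars ℂ := Pool.Agent.Y888.NT.der_ext' T hT fun j => by
      rw [hδ]
      refine Fin.cases ?_ (fun j => ?_) j
      · rw [if_pos rfl, hTd, Fin.cons_zero]
        exact hDs.symm
      · rw [if_neg (Fin.succ_ne_zero j).symm, hTd, Fin.cons_succ]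
        exact (Derivation.map_algebraMap Ds (u j)).symm
    intro y
    rw [h1]
    rfl
  have hb : ∀ (k : Fin (N + 1)) (c : Λ), ∃ c' : Λ, δ k (algebraMap Λ Ξ c) = algebraMap Λ Ξ c' := by
    intro k
    refine Fin.cases (fun c => ⟨0, ?_⟩) (fun k c => ⟨Eu k c, ?_⟩) k
    · rw [ha, Derivation.map_algebraMap, map_zero]
    · have h1 : (δ k.succ).compAlgebraMap Λ = (Algebra.linearMap Λ Ξ).compDer (Eu k) :=
        Pool.Agent.Y888.NT.der_ext' u hu fun j => by
          change δ k.succ (algebraMap Λ Ξ (u j)) = algebraMap Λ Ξ (Eu k (u j))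
          have h2 := hδ k.succ j.succ
          rw [hTd, Fin.cons_succ] at h2
          rw [h2, hEu]
          by_cases h : k = j
          · rw [if_pos h, if_pos (by rw [h]), map_one]
          · rw [if_neg h, if_neg (fun h' => h (Fin.succ_injective _ h')), map_zero]
      exact DFunLike.congr_fun h1 c
  -- the rows
  obtain ⟨mm, hmm⟩ : ∃ mm : Fin (N + 1) → Fin m → Ξ, mm = fun k j => δ k (algebraMap E Ξ (x j)) :=
    ⟨_, rfl⟩
  have hφy : AlgebraicIndependent ℂ (fun j => algebraMap E Ξ (x j)) :=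
    hx.1.map' (f := IsScalarTower.toAlgHom ℂ E Ξ) (algebraMap E Ξ).injective
  have hcol : ∀ c : Fin m → Ξ, (∀ k, ∑ j, c j * mm k j = 0) → c = 0 := by
    intro c hc
    funext i
    obtain ⟨D, hD⟩ := Pool.Agent.Y944.NT.exists_der_indep hφy i
    have h1 := Pool.Agent.Y944.NT.der_expand hT hδ D
    have h2 : ∀ x, D x = ∑ k, D (T k) * δ k x := by
      intro x
      conv_lhs => rw [h1]
      have h3 : (∑ k, D (T k) • δ k) x = ∑ k, (D (T k) • δ k) x :=
        congrFun (map_sum Derivation.coeFnAddMonoidHom (fun k => D (T k) • δ k) Finset.univ |>.trans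
          rfl) x |>.trans (Finset.sum_apply _ _ _)
      rw [h3]
      rfl
    have h4 : ∑ j, c j * D (algebraMap E Ξ (x j)) = 0 := by
      simp only [h2 (algebraMap E Ξ (x _)), Finset.mul_sum]
      rw [Finset.sum_comm]
      refine Finset.sum_eq_zero fun k _ => ?_
      have h5 := hc k
      calc ∑ j, c j * (D (T k) * δ k (algebraMap E Ξ (x j))) = D (T k) * ∑ j, c j * mm k j := by
            rw [Finset.mul_sum]
            exact Finset.sum_congr rfl fun j _ => by rw [hmm]; ring
        _ = 0 := by rw [h5, mul_zero]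
    simp only [hD, mul_ite, mul_one, mul_zero, Finset.sum_ite_eq, Finset.mem_univ, if_true] at h4
    exact h4
  -- the derivation of the fibre kills the coordinates
  have h0 : mm 0 = 0 := by
    by_contra h0
    obtain ⟨k, i0, hk0, -, hdet⟩ := Pool.Agent.Y944.NT.rows_ext mm hcol h0
    obtain ⟨c, hc⟩ : ∃ c, c = (Matrix.of fun i j => mm (k i) j : Matrix (Fin m) (Fin m) Ξ).det :=
      ⟨_, rfl⟩
    rw [← hc] at hdet
    have htr : ∀ f ∈ HX x (fun _ => False), Algebra.trace Λ⟮s⟯ Ξ (c * algebraMap E Ξ f) = 0 := by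
      intro f hf
      refine trace_line hs hDs fun w => ?_
      have h1 := hreg E Λ Ξ m N hm hN x hx f hf Ds s hDs (fun i => δ (k i)) i0 (fun z => by
        rw [hk0]
        exact ha z) (fun i c => hb (k i) c) w
      rw [hc, hmm]
      exact h1
    -- the embeddings
    let Ω := AlgebraicClosure Ξ
    obtain ⟨ρ0⟩ : Nonempty (Ξ →ₐ[Λ⟮s⟯] Ω) := ⟨IsScalarTower.toAlgHom Λ⟮s⟯ Ξ Ω⟩
    have hTC : IsScalarTower ℂ Λ⟮s⟯ Ξ := by
      refine IsScalarTower.of_algebraMap_eq fun r => ?_
      rw [IsScalarTower.algebraMap_apply ℂ Λ Ξ, IsScalarTower.algebraMap_apply ℂ Λ Λ⟮s⟯]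
      rfl
    have hTΩ : IsScalarTower ℂ Λ⟮s⟯ Ω := by
      refine IsScalarTower.of_algebraMap_eq fun r => ?_
      rw [IsScalarTower.algebraMap_apply ℂ Ξ Ω, IsScalarTower.algebraMap_apply Λ⟮s⟯ Ξ Ω,
        ← IsScalarTower.algebraMap_apply ℂ Λ⟮s⟯ Ξ]
    let R : (Ξ →ₐ[Λ⟮s⟯] Ω) → (E →ₐ[ℂ] Ω) := fun ρ =>
      (ρ.restrictScalars ℂ).comp (IsScalarTower.toAlgHom ℂ E Ξ)
    have hR : ∀ ρ f, R ρ f = ρ (algebraMap E Ξ f) := fun _ _ => rfl
    have hRinj : Function.Injective R := by
      intro ρ ρ' h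
      have h1 : ∀ f, ρ (algebraMap E Ξ f) = ρ' (algebraMap E Ξ f) := fun f => by
        rw [← hR, ← hR, h]
      have h2 : IntermediateField.adjoin Λ⟮s⟯ (Set.range (algebraMap E Ξ)) ≤
          IntermediateField.mk (AlgHom.equalizer ρ ρ') (fun y hy => by
            change ρ y⁻¹ = ρ' y⁻¹
            rw [map_inv₀, map_inv₀]
            congr 1) := by
        rw [IntermediateField.adjoin_le_iff]
        rintro _ ⟨f, rfl⟩
        exact h1 f
      rw [hgen] at h2
      exact AlgHom.ext fun y => h2 (IntermediateField.mem_top (x := y))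
    have hcard : (Finset.univ.image R).card < g := by
      refine lt_of_le_of_lt Finset.card_image_le ?_
      rw [Finset.card_univ, AlgHom.card Λ⟮s⟯ Ξ Ω]
      exact hdeg
    obtain ⟨cc, hcc⟩ : ∃ cc : (E →ₐ[ℂ] Ω) → Ω, ∀ ρ, cc (R ρ) = ρ c := by
      refine ⟨fun σ => if h : ∃ ρ, R ρ = σ then h.choose c else 0, fun ρ => ?_⟩
      have h : ∃ ρ', R ρ' = R ρ := ⟨ρ, rfl⟩
      simp only [dif_pos h]
      rw [hRinj h.choose_spec]
    have h1 := hg Ω (Finset.univ.image R) hcard cc (fun f hf => by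
      rw [Finset.sum_image fun a _ b _ h => hRinj h]
      have h2 := trace_eq_sum_embeddings (K := Λ⟮s⟯) (L := Ξ) Ω (x := c * algebraMap E Ξ f)
      rw [htr f hf, map_zero] at h2
      rw [h2]
      refine Finset.sum_congr rfl fun ρ _ => ?_
      rw [hcc, hR, map_mul]) (R ρ0) (Finset.mem_image_of_mem _ (Finset.mem_univ _))
    rw [hcc] at h1
    exact hdet ((_root_.map_eq_zero ρ0).1 h1)
  have h1 : (δ 0).compAlgebraMap E = 0 := Pool.Agent.Y888.NT.der_ext' x hx fun j => by
    change δ 0 (algebraMap E Ξ (x j)) = 0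
    have := congrFun h0 j
    rw [hmm] at this
    exact this
  have h2 : Ds (algebraMap E Ξ z) = 0 := by
    rw [← ha]
    exact DFunLike.congr_fun h1 z
  obtain ⟨c, hc⟩ := const_of_der (k := Λ) hDs0 h2
  rw [hc]
  exact isAlgebraic_algebraMap c

end Pool.Agent.N438.SX
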